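import Pool.Agent.H435R3.Weil.WELE

/-! # Character sums over finite fields: a bound with a constant depending on the order -/

set_option autoImplicit false

namespace Pool.Agent.H435R3.Weil

open Polynomial Finset

theorem rm_comp {F : Type*} [Field F] (f : F[X]) (v c : F) :
    rootMultiplicity (v - c) (f.comp (X + C c)) = rootMultiplicity v f := by
  rw [rootMultiplicity_eq_rootMultiplicity, rootMultiplicity_eq_rootMultiplicity (p := f),
    comp_assoc]
  congr 2
  simp only [add_comp, X_comp, C_comp, C_sub]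
  ring

open Classical in
open WELE in
theorem wele (t d : ℕ) (ht2 : 2 ≤ t) : ∃ K : ℝ, 0 ≤ K ∧ ∀ (E : Type) [Field E] [Fintype E],
    t ∣ Fintype.card E - 1 → ∀ ψ : MulChar E ℂ, ψ ≠ 1 → ψ ^ t = 1 → ∀ f : E[X],
    f.natDegree ≤ d → f ≠ 0 → Cop t f →
    ‖∑ x : E, ψ (f.eval x)‖ ≤ K * Real.sqrt (Fintype.card E) := by
  obtain ⟨K0, hK0, hcrd⟩ := crd t d ht2
  have ht : 0 < t := by omega
  refine ⟨t ^ 2 * K0 + t * d + d, by positivity, ?_⟩
  intro E _ _ htq χ hχ1 hχ f hfd hf hft
  have hq1 : (1 : ℝ) ≤ Real.sqrt (Fintype.card E) := by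
    rw [Real.one_le_sqrt]
    exact_mod_cast Fintype.card_pos
  obtain ⟨Q, hQ⟩ := htq
  have hq2 : 2 ≤ Fintype.card E := Fintype.one_lt_card
  have hQ' : t * Q + 1 = Fintype.card E := by omega
  have hQ0 : 0 < Q := by
    rcases Nat.eq_zero_or_pos Q with h0 | h0
    · rw [h0] at hQ'
      omega
    · exact h0
  have hdeg : 1 ≤ f.natDegree := by
    by_contra hlt
    have h0 : f.natDegree = 0 := by omega
    obtain ⟨c, hc⟩ := natDegree_eq_zero.1 h0
    obtain ⟨v, hv⟩ := hft
    rw [← hc, rootMultiplicity_C, Nat.coprime_zero_left] at hv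
    omega
  by_cases hqd : Fintype.card E ≤ d
  · have h1 : ‖∑ x : E, χ (f.eval x)‖ ≤ Fintype.card E := by
      refine (norm_sum_le _ _).trans ?_
      calc ∑ x : E, ‖χ (f.eval x)‖ ≤ ∑ x : E, (1 : ℝ) :=
            Finset.sum_le_sum fun x _ => mc_norm_le_one χ _
        _ = Fintype.card E := by simp
    have h2 : (Fintype.card E : ℝ) ≤ d := by exact_mod_cast hqd
    have h3 : (0 : ℝ) ≤ t ^ 2 * K0 + t * d := by positivity
    have h4 : (0 : ℝ) ≤ d := Nat.cast_nonneg d
    nlinarith
  · -- translation
    obtain ⟨c, hc⟩ : ∃ c : E, f.eval c ≠ 0 := by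
      by_contra hcon
      push Not at hcon
      have h1 : (Finset.univ : Finset E).card ≤ f.natDegree := by
        refine (Finset.card_le_card (t := f.roots.toFinset) ?_).trans
          ((Multiset.toFinset_card_le _).trans (card_roots' f))
        intro x _
        rw [Multiset.mem_toFinset, mem_roots hf]
        exact hcon x
      rw [Finset.card_univ] at h1
      omega
    set g := f.comp (X + C c) with hg
    have hge : ∀ x, g.eval x = f.eval (x + c) := by
      intro x
      rw [hg, eval_comp]
      simp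
    have hgf : g.comp (X - C c) = f := by
      rw [hg, comp_assoc]
      simp
    have hgd : g.natDegree = f.natDegree := by
      rw [hg, natDegree_comp, natDegree_X_add_C, mul_one]
    have hg0 : g ≠ 0 := by
      intro h0
      rw [h0, zero_comp] at hgf
      exact hf hgf.symm
    have hsum : ∑ x : E, χ (f.eval x) = ∑ x : E, χ (g.eval x) := by
      simp only [hge]
      exact (Equiv.sum_comp (Equiv.addRight c) (fun x => χ (f.eval x))).symm
    have hgt : Cop t g := by
      obtain ⟨v, hv⟩ := hft
      refine ⟨v - c, ?_⟩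
      rw [hg, rm_comp]
      exact hv
    have hN : ∀ a : E, ((univ.filter fun x : E => g.eval x ≠ 0 ∧
        g.eval x ^ Q = a).card : ℝ) ≤
          Fintype.card E / t + K0 * Real.sqrt (Fintype.card E) := by
      intro a
      have h1 := hcrd E g (by rw [hgd]; exact hdeg) (by rw [hgd]; exact hfd)
        (by rw [hge, zero_add]; exact hc) hgt a Q hQ'
      refine le_trans (Nat.cast_le.2 (Finset.card_le_card ?_)) h1
      intro x hx
      have hx' := (Finset.mem_filter.1 hx).2
      simp only [Finset.mem_filter, Finset.mem_univ, true_and]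
      exact Or.inr hx'.2
    rw [hsum]
    refine (main (d := d) hK0 ht hQ' hQ0 χ hχ hχ1 g hg0 (by rw [hgd]; exact hfd) hN).trans ?_
    have h4 : (0 : ℝ) ≤ d := Nat.cast_nonneg d
    nlinarith

end Pool.Agent.H435R3.Weil
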