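import Pool.Agent.H341R2.FieldSum
import Pool.Agent.H341R2.RootBound

/-! # `L`-polynomials of completely multiplicative functions on monic polynomials -/

set_option autoImplicit false

namespace Pool.Agent.H435R3.Weil

open Polynomial Finset Pool.Agent.H341R2.Sharp

variable {F : Type*} [Field F] [Fintype F] [DecidableEq F]

/-- the coefficients of the `L`-polynomial -/
noncomputable def AL (l : F[X] → ℂ) (n : ℕ) : ℂ := ∑ h ∈ Mon F n, l h

theorem AL_zero (l : F[X] → ℂ) (hl1 : l 1 = 1) : AL l 0 = 1 := by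
  unfold AL
  rw [Mon_zero, sum_singleton, hl1]

theorem l_pow (l : F[X] → ℂ) (hl1 : l 1 = 1)
    (hl : ∀ g h : F[X], g.Monic → h.Monic → l (g * h) = l g * l h) (g : F[X]) (hg : g.Monic)
    (k : ℕ) : l (g ^ k) = l g ^ k := by
  induction k with
  | zero => simp [hl1]
  | succ k ih => rw [pow_succ, hl _ _ (hg.pow k) hg, ih, pow_succ]

/-- the sum over irreducible polynomials of degree dividing `m` -/
noncomputable def TL (l : F[X] → ℂ) (m : ℕ) : ℂ :=
  ∑ P ∈ (Irr F m).filter (fun P => P.natDegree ∣ m), P.natDegree * l P ^ (m / P.natDegree)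

open scoped Classical in
theorem sum_pow_dvd (l : F[X] → ℂ) (hl1 : l 1 = 1)
    (hl : ∀ g h : F[X], g.Monic → h.Monic → l (g * h) = l g * l h) (P : F[X]) (hP : P.Monic)
    (n k : ℕ) :
    ∑ h ∈ Mon F n, (if P ^ k ∣ h then l h else 0) =
      if k * P.natDegree ≤ n then l P ^ k * AL l (n - k * P.natDegree) else 0 := by
  rw [← sum_filter]
  split_ifs with hkn
  · unfold AL
    rw [mul_sum]
    symm
    refine sum_bij' (fun g _ => P ^ k * g) (fun h _ => h /ₘ (P ^ k)) ?_ ?_ ?_ ?_ ?_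
    · intro g hg
      rw [mem_Mon] at hg
      rw [mem_filter, mem_Mon]
      refine ⟨⟨(hP.pow k).mul hg.1, ?_⟩, dvd_mul_right _ _⟩
      rw [(hP.pow k).natDegree_mul hg.1, hP.natDegree_pow, hg.2]
      omega
    · intro h hh
      rw [mem_filter, mem_Mon] at hh
      obtain ⟨g, rfl⟩ := hh.2
      have hg : g.Monic := (hP.pow k).of_mul_monic_left hh.1.1
      have h1 := hh.1.2
      rw [(hP.pow k).natDegree_mul hg, hP.natDegree_pow] at h1
      rw [mul_divByMonic_cancel_left _ (hP.pow k), mem_Mon]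
      exact ⟨hg, by omega⟩
    · intro g hg
      exact mul_divByMonic_cancel_left _ (hP.pow k)
    · intro h hh
      rw [mem_filter] at hh
      obtain ⟨g, rfl⟩ := hh.2
      rw [mul_divByMonic_cancel_left _ (hP.pow k)]
    · intro g hg
      rw [mem_Mon] at hg
      rw [hl _ _ (hP.pow k) hg.1, l_pow l hl1 hl _ hP]
  · apply sum_eq_zero
    intro h hh
    rw [mem_filter, mem_Mon] at hh
    exfalso
    have := natDegree_le_of_dvd hh.2 hh.1.1.ne_zero
    rw [hP.natDegree_pow, hh.1.2] at this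
    exact hkn this

theorem TL_eq (l : F[X] → ℂ) (n m : ℕ) (hm : 1 ≤ m) (hmn : m ≤ n) :
    TL l m = ∑ P ∈ Irr F n, ∑ k ∈ Icc 1 n,
      (if k * P.natDegree = m then (P.natDegree : ℂ) * l P ^ k else 0) := by
  have h1 : ∀ P ∈ Irr F n, ∑ k ∈ Icc 1 n,
      (if k * P.natDegree = m then (P.natDegree : ℂ) * l P ^ k else 0) =
      if P.natDegree ∣ m then (P.natDegree : ℂ) * l P ^ (m / P.natDegree) else 0 := by
    intro P hP
    rw [mem_Irr] at hP
    have h3 : 1 ≤ P.natDegree := hP.2.1.natDegree_pos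
    split_ifs with hdvd
    · obtain ⟨k, hk⟩ := hdvd
      have hkm : k * P.natDegree = m := by rw [hk]; ring
      have hk1 : 1 ≤ k := by
        rcases Nat.eq_zero_or_pos k with h0 | h0
        · rw [h0] at hkm; omega
        · exact h0
      have hkn : k ≤ n := by nlinarith
      rw [sum_eq_single k]
      · rw [if_pos hkm]
        have : m / P.natDegree = k := by
          rw [hk]
          exact Nat.mul_div_cancel_left _ (by omega)
        rw [this]
      · intro j _ hj
        rw [if_neg]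
        intro hjm
        exact hj (Nat.eq_of_mul_eq_mul_right (by omega) (hjm.trans hkm.symm))
      · intro hk'
        exact absurd (mem_Icc.2 ⟨hk1, hkn⟩) hk'
    · apply sum_eq_zero
      intro k _
      rw [if_neg]
      intro hk
      exact hdvd ⟨k, by rw [← hk]; ring⟩
  rw [sum_congr rfl h1, ← sum_filter]
  unfold TL
  apply sum_congr _ fun _ _ => rfl
  ext P
  rw [mem_filter, mem_filter, mem_Irr, mem_Irr]
  constructor
  · rintro ⟨⟨h1, h2, h3⟩, h4⟩
    exact ⟨⟨h1, h2, by omega⟩, h4⟩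
  · rintro ⟨⟨h1, h2, h3⟩, h4⟩
    exact ⟨⟨h1, h2, Nat.le_of_dvd (by omega) h4⟩, h4⟩

/-- the logarithmic derivative identity -/
theorem n_mul_AL (l : F[X] → ℂ) (hl1 : l 1 = 1)
    (hl : ∀ g h : F[X], g.Monic → h.Monic → l (g * h) = l g * l h) (n : ℕ) :
    (n : ℂ) * AL l n = ∑ m ∈ Icc 1 n, AL l (n - m) * TL l m := by
  classical
  have hcnt : ∀ h ∈ Mon F n, ∑ P ∈ Irr F n, ∑ k ∈ Icc 1 n,
      (if P ^ k ∣ h then (P.natDegree : ℂ) else 0) = n := by
    intro h hh
    have := count_dvd hh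
    have h2 : ((∑ P ∈ Irr F n, ∑ k ∈ Icc 1 n,
      (if P ^ k ∣ h then (P.natDegree : ℤ) else 0) : ℤ) : ℂ) = ((n : ℤ) : ℂ) := by rw [this]
    push_cast at h2
    exact h2
  have h1 : (n : ℂ) * AL l n = ∑ P ∈ Irr F n, ∑ k ∈ Icc 1 n, (P.natDegree : ℂ) *
      ∑ h ∈ Mon F n, (if P ^ k ∣ h then l h else 0) := by
    have h2 : (n : ℂ) * AL l n = ∑ h ∈ Mon F n, ∑ P ∈ Irr F n, ∑ k ∈ Icc 1 n,
        (P.natDegree : ℂ) * (if P ^ k ∣ h then l h else 0) := by
      unfold AL
      rw [mul_sum]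
      apply sum_congr rfl
      intro h hh
      rw [← hcnt h hh, sum_mul]
      apply sum_congr rfl
      intro P _
      rw [sum_mul]
      apply sum_congr rfl
      intro k _
      split_ifs <;> simp
    rw [h2, sum_comm]
    apply sum_congr rfl
    intro P _
    rw [sum_comm]
    apply sum_congr rfl
    intro k _
    rw [mul_sum]
  rw [h1]
  have h3 : ∀ P ∈ Irr F n, ∑ k ∈ Icc 1 n, (P.natDegree : ℂ) *
      ∑ h ∈ Mon F n, (if P ^ k ∣ h then l h else 0) =
      ∑ k ∈ Icc 1 n, ∑ m ∈ Icc 1 n, AL l (n - m) *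
        (if k * P.natDegree = m then (P.natDegree : ℂ) * l P ^ k else 0) := by
    intro P hP
    rw [mem_Irr] at hP
    have hd : 1 ≤ P.natDegree := hP.2.1.natDegree_pos
    apply sum_congr rfl
    intro k hk
    rw [mem_Icc] at hk
    rw [sum_pow_dvd l hl1 hl P hP.1]
    split_ifs with hkn
    · rw [sum_eq_single (k * P.natDegree)]
      · rw [if_pos rfl]; ring
      · intro m _ hm
        rw [if_neg (Ne.symm hm), mul_zero]
      · intro hk'
        exact absurd (mem_Icc.2 ⟨Nat.mul_pos (by omega) hd, hkn⟩) hk'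
    · rw [mul_zero]
      symm
      apply sum_eq_zero
      intro m hm
      rw [mem_Icc] at hm
      rw [if_neg (by omega), mul_zero]
  rw [sum_congr rfl h3]
  have h4 : ∑ m ∈ Icc 1 n, AL l (n - m) * TL l m = ∑ m ∈ Icc 1 n, ∑ P ∈ Irr F n, ∑ k ∈ Icc 1 n,
      AL l (n - m) * (if k * P.natDegree = m then (P.natDegree : ℂ) * l P ^ k else 0) := by
    apply sum_congr rfl
    intro m hm
    rw [mem_Icc] at hm
    rw [TL_eq l n m hm.1 hm.2, mul_sum]
    apply sum_congr rfl
    intro P _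
    rw [mul_sum]
  rw [h4]
  symm
  rw [sum_comm]
  apply sum_congr rfl
  intro P _
  rw [sum_comm]


end Pool.Agent.H435R3.Weil
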