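import Pool.Agent.H435R3.Weil.Lam
import Pool.Agent.H435R3.Weil.Bound

/-! # Weil's bound for `∑ χ(P(x)) conj χ(R(x))`, uniformly in the order of `χ` -/

set_option autoImplicit false

namespace Pool.Agent.H435R3.Weil

open Polynomial Finset Pool.Agent.H341R2.Sharp IntermediateField

theorem conj_eq {F : Type} [Field F] {t : ℕ} (ht : 2 ≤ t) (χ : MulChar F ℂ)
    (hχ : χ ^ t = 1) (z : F) : (starRingEnd ℂ) (χ z) = χ z ^ (t - 1) := by
  by_cases hz : z = 0
  · have h0 : χ z = 0 := by
      rw [hz]
      exact MulChar.map_zero χ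
    rw [h0, map_zero, zero_pow (by omega)]
  · have hu : IsUnit z := isUnit_iff_ne_zero.2 hz
    have h1 : χ z ^ t = 1 := by
      rw [← MulChar.pow_apply' χ (by omega), hχ, MulChar.one_apply hu]
    have h2 : ‖χ z‖ = 1 := Complex.norm_eq_one_of_pow_eq_one h1 (by omega)
    rw [← Complex.inv_eq_conj h2]
    have h4 : χ z ^ t = χ z ^ (t - 1) * χ z := by
      rw [← pow_succ]
      congr 1
      omega
    rw [h4] at h1
    exact (eq_inv_of_mul_eq_one_left h1).symm

/-- the character composed with the norm -/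
noncomputable def normChar (F E : Type) [Field F] [Field E] [Algebra F E] [FiniteDimensional F E]
    (χ : MulChar F ℂ) : MulChar E ℂ where
  toFun x := χ (Algebra.norm F x)
  map_one' := by simp
  map_mul' x y := by simp
  map_nonunit' x hx := by
    have h0 : x = 0 := by
      by_contra h
      exact hx (isUnit_iff_ne_zero.2 h)
    rw [h0, Algebra.norm_zero]
    exact MulChar.map_zero χ

theorem normChar_apply (F E : Type) [Field F] [Field E] [Algebra F E] [FiniteDimensional F E]
    (χ : MulChar F ℂ) (x : E) : normChar F E χ x = χ (Algebra.norm F x) := rfl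

theorem normChar_pow (F E : Type) [Field F] [Field E] [Algebra F E] [FiniteDimensional F E]
    (χ : MulChar F ℂ) (t : ℕ) (ht : t ≠ 0) (hχ : χ ^ t = 1) : (normChar F E χ) ^ t = 1 := by
  ext u
  rw [MulChar.pow_apply' _ ht, normChar_apply, ← MulChar.pow_apply' _ ht, hχ,
    MulChar.one_apply_coe, MulChar.one_apply]
  exact isUnit_iff_ne_zero.2 ((Algebra.norm_ne_zero_iff).2 u.ne_zero)

theorem normChar_ne_one (F E : Type) [Field F] [Finite F] [Field E] [Finite E] [Algebra F E]
    [FiniteDimensional F E] (χ : MulChar F ℂ) (hχ : χ ≠ 1) : normChar F E χ ≠ 1 := by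
  obtain ⟨u, hu⟩ := MulChar.ne_one_iff.1 hχ
  obtain ⟨x, hx⟩ := FiniteField.norm_surjective F E (u : F)
  intro h
  apply hu
  rw [← hx, ← normChar_apply, h, MulChar.one_apply]
  apply isUnit_iff_ne_zero.2
  rintro rfl
  rw [Algebra.norm_zero] at hx
  exact u.ne_zero hx.symm

section

variable {F E : Type} [Field F] [Fintype F] [DecidableEq F] [Field E] [Fintype E] [DecidableEq E]
  [Algebra F E]

theorem TL_char (χ : MulChar F ℂ) (P R : F[X]) :
    TL (lamPR χ P R) (Module.finrank F E) = ∑ x : E, χ (Algebra.norm F (aeval x P)) *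
      (starRingEnd ℂ) (χ (Algebra.norm F (aeval x R))) := by
  rw [TL_eq_sum (E := E)]
  refine sum_congr rfl fun x _ => ?_
  rw [norm_aeval, norm_aeval, map_pow, map_pow, map_pow, ← mul_pow]
  rfl

end

end Pool.Agent.H435R3.Weil
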